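import Pool.Agent.H73.GWQ.Stmts

/-!
Project GWQ (MP_213ba5_lc), row MWQ: total weight of the messages.
-/

set_option autoImplicit false

open Classical

namespace GWQ

namespace MWQAux

theorem geom8 (n : ℕ) (z : ℝ) (h0 : 0 ≤ z) (h : z ≤ 1 / 8) :
    ∑ r ∈ Finset.range n, z ^ r ≤ 8 / 7 := by
  have h1 : ∑ r ∈ Finset.range n, z ^ r ≤ ∑ r ∈ Finset.range n, (1 / 8 : ℝ) ^ r :=
    Finset.sum_le_sum fun r _ => pow_le_pow_left₀ h0 h r
  refine h1.trans ?_
  rw [geom_sum_eq (by norm_num)]
  have h2 : (0 : ℝ) < (1 / 8) ^ n := by positivity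
  have h3 : ((1 / 8 : ℝ) ^ n - 1) / (1 / 8 - 1) = (1 - (1 / 8) ^ n) * (8 / 7) := by
    field_simp
    ring
  rw [h3]
  linarith

/-- the data of a bad message -/
def code {ι : Type*} : Msg ι → (Bool × Option ι) × ℕ
  | Msg.good => ((false, none), 0)
  | Msg.bad lb lf r => ((lb, lf), r)

end MWQAux

theorem MWQ {ι G V : Type*} [Fintype ι] [Group G] (C : QCode ι G V) : MWQStmt C := by
  intro 𝓜 hV
  set y : ℝ := ((C.M : ℝ))⁻¹ with hy
  have hM8 : (8 : ℝ) ≤ C.M := by exact_mod_cast C.M_big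
  have hM0 : (0 : ℝ) < C.M := by linarith
  have hy0 : 0 ≤ y := by positivity
  have hy8 : y ≤ 1 / 8 := by
    rw [hy, one_div]
    exact inv_anti₀ (by norm_num) hM8
  let f : (Bool × Option ι) × ℕ → ℝ := fun q => y ^ q.1.2.toList.length * y ^ q.2
  have hf0 : ∀ q, 0 ≤ f q := fun q => by positivity
  have hinj : Set.InjOn (MWQAux.code : Msg ι → _) (𝓜.erase Msg.good : Finset (Msg ι)) := by
    intro μ hμ μ' hμ' h
    have h1 := (Finset.mem_erase.1 (Finset.mem_coe.1 hμ)).1
    have h2 := (Finset.mem_erase.1 (Finset.mem_coe.1 hμ')).1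
    cases μ with
    | good => exact absurd rfl h1
    | bad lb lf r =>
      cases μ' with
      | good => exact absurd rfl h2
      | bad lb' lf' r' =>
        simp only [MWQAux.code, Prod.mk.injEq] at h
        obtain ⟨⟨rfl, rfl⟩, rfl⟩ := h
        rfl
  have h1 : ∑ μ ∈ 𝓜.erase Msg.good, omg (C.M : ℝ) μ =
      ∑ p ∈ (𝓜.erase Msg.good).image MWQAux.code, f p := by
    rw [Finset.sum_image hinj]
    apply Finset.sum_congr rfl
    intro μ hμ
    have h2 := (Finset.mem_erase.1 hμ).1
    cases μ with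
    | good => exact absurd rfl h2
    | bad lb lf r =>
      simp only [omg, f, MWQAux.code]
      rw [pow_add]
  set S := (𝓜.erase Msg.good).image MWQAux.code with hS
  set P : Finset (Bool × Option ι) :=
    insert (false, none) ((Finset.univ : Finset (Option ι)).image (fun lf => (true, lf))) with hP
  set n : ℕ := S.sup (fun p => p.2) with hn
  have hsub : S ⊆ P ×ˢ Finset.range (n + 1) := by
    intro p hp
    rw [Finset.mem_product]
    have h3 : p.2 ≤ n := Finset.le_sup (f := fun p : (Bool × Option ι) × ℕ => p.2) hp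
    refine ⟨?_, Finset.mem_range.2 (Nat.lt_succ_of_le h3)⟩
    obtain ⟨μ, hμ, rfl⟩ := Finset.mem_image.1 hp
    obtain ⟨hne, hmem⟩ := Finset.mem_erase.1 hμ
    have hv := hV μ hmem
    cases μ with
    | good => exact absurd rfl hne
    | bad lb lf r =>
      simp only [MWQAux.code]
      rw [hP, Finset.mem_insert, Finset.mem_image]
      cases lb with
      | false =>
        have h4 : lf = none := hv rfl
        exact Or.inl (by rw [h4])
      | true => exact Or.inr ⟨lf, Finset.mem_univ _, rfl⟩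
  have hcard : (Fintype.card ι : ℝ) * y = C.M := by
    rw [C.card, hy]
    push_cast
    field_simp
  have hPs : ∑ a ∈ P, y ^ a.2.toList.length ≤ 2 + C.M := by
    rw [hP, Finset.sum_insert, Finset.sum_image, Fintype.sum_option]
    · simp only [Option.toList_none, List.length_nil, pow_zero, Option.toList_some,
        List.length_singleton, pow_one, Finset.sum_const, Finset.card_univ, nsmul_eq_mul]
      rw [hcard]
      linarith
    · intro a _ b _ h
      exact (Prod.mk.inj h).2
    · intro h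
      obtain ⟨lf, -, h2⟩ := Finset.mem_image.1 h
      exact absurd (Prod.mk.inj h2).1 (by simp)
  have hPs0 : 0 ≤ ∑ a ∈ P, y ^ a.2.toList.length := Finset.sum_nonneg fun _ _ => pow_nonneg hy0 _
  have hRs := MWQAux.geom8 (n + 1) y hy0 hy8
  have hRs0 : 0 ≤ ∑ r ∈ Finset.range (n + 1), y ^ r :=
    Finset.sum_nonneg fun _ _ => pow_nonneg hy0 _
  have h5 : ∑ p ∈ S, f p ≤ 3 * (C.M : ℝ) := by
    calc ∑ p ∈ S, f p ≤ ∑ p ∈ P ×ˢ Finset.range (n + 1), f p :=
          Finset.sum_le_sum_of_subset_of_nonneg hsub fun q _ _ => hf0 q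
      _ = (∑ a ∈ P, y ^ a.2.toList.length) * ∑ r ∈ Finset.range (n + 1), y ^ r := by
          rw [Finset.sum_product, Finset.sum_mul_sum]
      _ ≤ (2 + C.M) * (8 / 7) :=
          mul_le_mul hPs hRs hRs0 (by linarith)
      _ ≤ 3 * (C.M : ℝ) := by linarith
  have h6 : ∑ μ ∈ 𝓜, omg (C.M : ℝ) μ ≤
      (C.M : ℝ) + ∑ μ ∈ 𝓜.erase Msg.good, omg (C.M : ℝ) μ := by
    by_cases hg : Msg.good ∈ 𝓜
    · rw [← Finset.add_sum_erase 𝓜 _ hg]
      simp only [omg]
      exact le_rfl
    · rw [Finset.erase_eq_of_notMem hg]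
      linarith
  rw [h1] at h6
  linarith

end GWQ
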